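import Mathlib

/-!
# Parity of the number of irreducible factors (the argument of Stickelberger and Swan)
-/

set_option autoImplicit false

namespace Pool.Agent.Y713.ES

open Polynomial Finset

/-- the derivative of `a ∏ (X - v i)` at `v i` -/
theorem eval_derivative_prod {R : Type*} [CommRing R] {n : ℕ} (v : Fin n → R) (a : R) (i : Fin n) :
    (derivative (C a * ∏ j, (X - C (v j)))).eval (v i) = a * ∏ j ∈ {i}ᶜ, (v i - v j) := by
  have h := Lagrange.eval_nodal_derivative_eval_node_eq (s := (univ : Finset (Fin n))) (v := v)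
    (mem_univ i)
  rw [derivative_C_mul, eval_C_mul]
  congr 1
  rw [Lagrange.nodal] at h
  rw [h, Lagrange.nodal, eval_prod]
  have : (univ : Finset (Fin n)).erase i = {i}ᶜ := by
    ext j; simp
  rw [this]
  simp

/-- the product of the derivatives at the roots is the square of a multiple of the Vandermonde
determinant -/
theorem prod_eval_derivative {R : Type*} [CommRing R] {n : ℕ} (hn : 4 ∣ n) (v : Fin n → R) (a : R) :
    ∏ i, (derivative (C a * ∏ j, (X - C (v j)))).eval (v i)
      = (a ^ (n / 2) * (Matrix.vandermonde v).det) ^ 2 := by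
  simp_rw [eval_derivative_prod]
  rw [prod_mul_distrib, prod_const, card_univ, Fintype.card_fin, mul_pow, ← pow_mul]
  have e1 : n / 2 * 2 = n := by omega
  rw [e1]
  congr 1
  have h := prod_prod_Ioi_mul_eq_prod_prod_off_diag (fun j i : Fin n => v i - v j)
  rw [← h, Matrix.det_vandermonde]
  have h2 : ∀ i : Fin n, ∏ j ∈ Ioi i, (v i - v j) * (v j - v i)
      = (-1) ^ (n - 1 - (i : ℕ)) * (∏ j ∈ Ioi i, (v j - v i)) ^ 2 := by
    intro i
    rw [← Fin.card_Ioi, ← prod_const, ← prod_pow, ← prod_mul_distrib]
    exact prod_congr rfl fun j _ => by ring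
  rw [prod_congr rfl fun i _ => h2 i, prod_mul_distrib, prod_pow, prod_pow_eq_pow_sum]
  have h3 : ∑ i : Fin n, (n - 1 - (i : ℕ)) = n * (n - 1) / 2 := by
    rw [Fin.sum_univ_eq_sum_range (fun i => n - 1 - i) n, Finset.sum_range_reflect (fun i => i) n,
      sum_range_id]
  obtain ⟨k, rfl⟩ := hn
  have h4 : 4 * k * (4 * k - 1) / 2 = 2 * (k * (4 * k - 1)) := by
    have : 4 * k * (4 * k - 1) = 2 * (2 * (k * (4 * k - 1))) := by ring
    omega
  rw [h3, h4, pow_mul]
  simp

/-- the main argument: an endomorphism which permutes the roots of a polynomial of degree divisible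
by four cyclically changes the sign of the square root of the discriminant -/
theorem core {R : Type*} [CommRing R] [IsDomain R] (σ : R →+* R) {n : ℕ} (hn : 4 ∣ n)
    (hn0 : 0 < n) (w : ℕ → R) (hper : ∀ k, w (k + n) = w k)
    (hinj : ∀ i j, i < n → j < n → w i = w j → i = j) (hσ : ∀ k, σ (w k) = w (k + 1))
    (a : R) (ha : σ a = a) (ha0 : a ≠ 0) (c : R) (hc : σ c = c)
    (hprod : ∏ i : Fin n, (derivative (C a * ∏ j : Fin n, (X - C (w j)))).eval (w i) = c ^ 2) :
    (2 : R) = 0 := by
  obtain ⟨m, rfl⟩ : ∃ m, n = m + 1 := ⟨n - 1, by omega⟩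
  set v : Fin (m + 1) → R := fun i => w i with hvdef
  have hv : Function.Injective v := fun i j h => Fin.ext (hinj _ _ i.2 j.2 h)
  set D : R := (Matrix.vandermonde v).det with hD
  have hD0 : D ≠ 0 := Matrix.det_vandermonde_ne_zero_iff.2 hv
  have hrot : ∀ i : Fin (m + 1), σ (v i) = v (finRotate (m + 1) i) := by
    intro i
    rw [hvdef]
    simp only
    rw [hσ, finRotate_apply]
    by_cases hi : (i : ℕ) < m
    · rw [Fin.val_add_one_of_lt (by rw [Fin.lt_def]; simpa using hi)]
    · have h1 : i = Fin.last m := by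
        apply Fin.ext
        have := i.2
        rw [Fin.val_last]; omega
      rw [h1, Fin.last_add_one, Fin.val_last, Fin.val_zero]
      have := hper 0
      rw [zero_add] at this
      exact this
  have hσD : σ D = - D := by
    have h1 : σ D = (Matrix.vandermonde (fun i => v (finRotate (m + 1) i))).det := by
      rw [hD, RingHom.map_det]
      congr 1
      ext i j
      rw [RingHom.mapMatrix_apply, Matrix.map_apply, Matrix.vandermonde_apply,
        Matrix.vandermonde_apply, map_pow, hrot]
    have h2 : Matrix.vandermonde (fun i => v (finRotate (m + 1) i))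
        = (Matrix.vandermonde v).submatrix (finRotate (m + 1)) id := by
      ext i j
      simp [Matrix.vandermonde_apply]
    rw [h1, h2, Matrix.det_permute, sign_finRotate]
    have h3 : Odd (m + 1 - 1) := by
      rw [Nat.odd_iff]; omega
    rw [h3.neg_one_pow]
    simp [hD]
  rw [prod_eval_derivative hn v a] at hprod
  set b : R := a ^ ((m + 1) / 2) * D with hb
  have hb0 : b ≠ 0 := mul_ne_zero (pow_ne_zero _ ha0) hD0
  have hσb : σ b = - b := by
    rw [hb, map_mul, map_pow, ha, hσD]; ring
  have h2b : (2 : R) * b = 0 := by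
    rcases sq_eq_sq_iff_eq_or_eq_neg.1 hprod with h | h
    · have h1 : σ b = b := by rw [h, hc]
      linear_combination hσb - h1
    · have h1 : σ b = b := by rw [h, map_neg, hc]
      linear_combination hσb - h1
  exact (mul_eq_zero.1 h2b).resolve_right hb0

/-- a polynomial of degree `n` with `n` different roots -/
theorem eq_prod {R : Type*} [CommRing R] [IsDomain R] {n : ℕ} (H : R[X]) (hH : H ≠ 0)
    (hdeg : H.natDegree = n) (w : ℕ → R) (hinj : ∀ i j, i < n → j < n → w i = w j → i = j)
    (hroot : ∀ i, i < n → H.eval (w i) = 0) :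
    H = C H.leadingCoeff * ∏ j : Fin n, (X - C (w j)) := by
  classical
  have hv : Function.Injective (fun i : Fin n => w i) := fun i j h => Fin.ext (hinj _ _ i.2 j.2 h)
  set s : Multiset R := Multiset.map (fun i : Fin n => w (i : ℕ)) (univ : Finset (Fin n)).val with hs
  have hnd : s.Nodup := Multiset.Nodup.map hv univ.nodup
  have hle : s ≤ H.roots := by
    rw [Multiset.le_iff_subset hnd]
    intro x hx
    rw [hs, Multiset.mem_map] at hx
    obtain ⟨i, -, rfl⟩ := hx
    rw [mem_roots hH]
    exact hroot i i.2
  have hcard : s.card = n := by simp [hs]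
  have heq : s = H.roots := by
    apply Multiset.eq_of_le_of_card_le hle
    rw [hcard, ← hdeg]
    exact card_roots' H
  have h1 := C_leadingCoeff_mul_prod_multiset_X_sub_C (p := H) (by rw [← heq, hcard, hdeg])
  rw [← heq, hs, Multiset.map_map] at h1
  exact h1.symm

end Pool.Agent.Y713.ES
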