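import Pool.Agent.Y713.ES.Core

/-!
# The conjugates of a root of an irreducible polynomial over a finite field
-/

set_option autoImplicit false

namespace Pool.Agent.Y713.ES

open Polynomial Finset

universe u

variable {K : Type u} [Field K] [Finite K]

/-- a finite extension field generated by a root, with its Frobenius -/
theorem exists_ext (h : K[X]) (hirr : Irreducible h) :
    ∃ (E : Type u) (_ : Field E) (_ : Finite E) (ι : K →+* E) (φ : E →+* E) (θ : E),
      (∀ x, φ (ι x) = ι x) ∧ h.eval₂ ι θ = 0 ∧
      (∀ x, φ x = x ^ Nat.card K) ∧ (∀ k, φ^[k + h.natDegree] θ = φ^[k] θ) ∧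
      (∀ i j, i < h.natDegree → j < h.natDegree → φ^[i] θ = φ^[j] θ → i = j) := by
  have : Fact (Irreducible h) := ⟨hirr⟩
  have hh0 : h ≠ 0 := hirr.ne_zero
  have : Module.Finite K (AdjoinRoot h) := (AdjoinRoot.powerBasis hh0).finite
  have : Finite (AdjoinRoot h) := Module.finite_of_finite K
  let _ : Fintype K := Fintype.ofFinite K
  let _ : Fintype (AdjoinRoot h) := Fintype.ofFinite _
  set φ : AdjoinRoot h →+* AdjoinRoot h := (FiniteField.frobeniusAlgHom K (AdjoinRoot h)).toRingHom
    with hφdef
  have hφ : ∀ x, φ x = x ^ Nat.card K := by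
    intro x
    rw [Nat.card_eq_fintype_card]
    rfl
  have hφk : ∀ (k : ℕ) (x : AdjoinRoot h), φ^[k] x = x ^ (Nat.card K ^ k) := by
    intro k
    induction k with
    | zero => intro x; simp
    | succ k ih =>
      intro x
      rw [Function.iterate_succ_apply', ih, hφ, ← pow_mul, ← pow_succ]
  have hcard : Nat.card (AdjoinRoot h) = Nat.card K ^ h.natDegree := by
    rw [Module.natCard_eq_pow_finrank (K := K) (V := AdjoinRoot h),
      (AdjoinRoot.powerBasis hh0).finrank, AdjoinRoot.powerBasis_dim]
  have hid : ∀ x : AdjoinRoot h, φ^[h.natDegree] x = x := by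
    intro x
    rw [hφk, ← hcard, Nat.card_eq_fintype_card]
    exact FiniteField.pow_card x
  set θ : AdjoinRoot h := AdjoinRoot.root h with hθ
  have hinj : Function.Injective φ := φ.injective
  have key : ∀ i j, i ≤ j → i < h.natDegree → j < h.natDegree → φ^[i] θ = φ^[j] θ → i = j := by
    intro i j hij hi hj he
    obtain ⟨k, rfl⟩ := Nat.exists_eq_add_of_le hij
    rw [Function.iterate_add_apply] at he
    have h1 : θ = φ^[k] θ := hinj.iterate i he
    rw [hφk] at h1
    have hdvd : h ∣ X ^ (Nat.card K ^ k) - X := by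
      rw [← AdjoinRoot.mk_eq_zero, ← AdjoinRoot.aeval_eq]
      simp only [map_sub, map_pow, aeval_X]
      rw [sub_eq_zero]
      exact h1.symm
    have h2 := hirr.natDegree_dvd_of_dvd_X_pow_card_pow_sub_X hdvd
    have h3 : k = 0 := by
      rcases Nat.eq_zero_or_pos k with h | h
      · exact h
      · have := Nat.le_of_dvd h h2
        omega
    omega
  refine ⟨AdjoinRoot h, inferInstance, inferInstance, AdjoinRoot.of h, φ, θ, ?_, ?_, hφ, ?_, ?_⟩
  · intro x
    exact (FiniteField.frobeniusAlgHom K (AdjoinRoot h)).commutes x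
  · exact AdjoinRoot.eval₂_root h
  · intro k
    rw [Function.iterate_add_apply, hid]
  · intro i j hi hj he
    rcases le_total i j with h | h
    · exact key i j h hi hj he
    · exact (key j i h hj hi he.symm).symm

/-- a cyclic shift does not change the product -/
theorem prod_shift {R : Type*} [CommRing R] {n : ℕ} (hn : 0 < n) (F : ℕ → R) (hF : F n = F 0) :
    ∏ i : Fin n, F (i + 1) = ∏ i : Fin n, F i := by
  rw [Fin.prod_univ_eq_prod_range (fun i => F (i + 1)) n, Fin.prod_univ_eq_prod_range F n]
  obtain ⟨m, rfl⟩ : ∃ m, n = m + 1 := ⟨n - 1, by omega⟩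
  rw [prod_range_succ, prod_range_succ', hF]

/-- `u ^ (4 p) + X b ^ (8 p)` is reducible in odd characteristic -/
theorem not_irreducible_odd {p : ℕ} [Fact p.Prime] [CharP K p] (hp2 : p ≠ 2) (u b : K[X])
    (hub : (X * b ^ (8 * p)).natDegree < 4 * p * u.natDegree) :
    ¬ Irreducible (u ^ (4 * p) + X * b ^ (8 * p)) := by
  intro hirr
  have hp : p.Prime := Fact.out
  have h2 : (2 : K) ≠ 0 := by
    intro h
    apply hp2
    have h1 : p ∣ 2 := (CharP.cast_eq_zero_iff K p 2).1 (by exact_mod_cast h)
    exact (Nat.prime_dvd_prime_iff_eq hp Nat.prime_two).1 h1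
  set h : K[X] := u ^ (4 * p) + X * b ^ (8 * p) with hh
  have hdeg : h.natDegree = 4 * p * u.natDegree := by
    rw [hh, natDegree_add_eq_left_of_natDegree_lt (by rw [natDegree_pow]; exact hub),
      natDegree_pow]
  have hd : derivative h = b ^ (8 * p) := by
    rw [hh, derivative_add, derivative_mul, derivative_pow, derivative_pow, derivative_X]
    have e1 : ((4 * p : ℕ) : K) = 0 := by
      rw [Nat.cast_mul, CharP.cast_eq_zero K p, mul_zero]
    have e2 : ((8 * p : ℕ) : K) = 0 := by
      rw [Nat.cast_mul, CharP.cast_eq_zero K p, mul_zero]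
    rw [e1, e2]
    simp
  obtain ⟨E, _, _, ι, φ, θ, hι, hroot, hφ, hper, hinj⟩ := exists_ext h hirr
  set H : E[X] := h.map ι with hH
  have hH0 : H ≠ 0 := (Polynomial.map_ne_zero_iff ι.injective).2 hirr.ne_zero
  have hHdeg : H.natDegree = h.natDegree := natDegree_map_eq_of_injective ι.injective h
  have hmapφ : ∀ P : K[X], (P.map ι).map φ = P.map ι := by
    intro P
    rw [Polynomial.map_map]
    congr 1
    ext x
    simp [hι]
  have hr : ∀ i, H.eval (φ^[i] θ) = 0 := by
    intro i
    induction i with
    | zero => simpa [hH, eval_map] using hroot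
    | succ k ih =>
      rw [Function.iterate_succ_apply', hH, ← hmapφ, eval_map, eval₂_at_apply]
      rw [hH] at ih
      rw [ih, map_zero]
  have heq := eq_prod H hH0 hHdeg (fun i => φ^[i] θ) hinj (fun i _ => hr i)
  have hlead : H.leadingCoeff = ι h.leadingCoeff := leadingCoeff_map_of_injective ι.injective h
  have hn0 : 0 < h.natDegree := by rw [hdeg]; omega
  set F : ℕ → E := fun i => (b.map ι).eval (φ^[i] θ) ^ (4 * p) with hF
  have hFφ : ∀ i, φ (F i) = F (i + 1) := by
    intro i
    rw [hF]
    simp only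
    rw [map_pow, Function.iterate_succ_apply']
    conv_rhs => rw [← hmapφ, eval_map, eval₂_at_apply]
  have hFn : F h.natDegree = F 0 := by
    rw [hF]
    simp only
    have := hper 0
    rw [zero_add] at this
    rw [this]
  have := core φ (by rw [hdeg]; exact ⟨p * u.natDegree, by ring⟩) hn0 (fun i => φ^[i] θ) hper hinj
    (fun k => (Function.iterate_succ_apply' φ k θ).symm) H.leadingCoeff (by rw [hlead, hι])
    (leadingCoeff_ne_zero.2 hH0) (∏ i : Fin h.natDegree, F i)
    (by
      have h1 : ∏ i : Fin h.natDegree, φ (F (i : ℕ)) = ∏ i : Fin h.natDegree, F ((i : ℕ) + 1) :=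
        prod_congr rfl fun i _ => hFφ (i : ℕ)
      rw [map_prod, h1]
      exact prod_shift hn0 F hFn)
    (by
      rw [← heq, ← prod_pow]
      have : derivative H = (b.map ι) ^ (8 * p) := by
        rw [hH, derivative_map, hd, Polynomial.map_pow]
      rw [this]
      refine prod_congr rfl fun i _ => ?_
      rw [hF]
      simp only
      rw [eval_pow, ← pow_mul]
      congr 1; ring)
  apply h2
  apply ι.injective
  rw [map_ofNat, this, map_zero]

end Pool.Agent.Y713.ES
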