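import Pool.Agent.Y713.ES.Two

/-!
# `u ^ 8 + X b ^ 16` is reducible in characteristic two
-/

set_option autoImplicit false

namespace Pool.Agent.Y713.ES

open Polynomial Finset

universe u

/-- the lift of a polynomial with the multiplicative representatives of its coefficients -/
theorem exists_lift {K : Type u} [Field K] {E : Type u} [Field E] [Finite E] [CharP E 2]
    (ι : K →+* E) (φ : E →+* E) (hι : ∀ x, φ (ι x) = ι x) (u : K[X]) (hu0 : u ≠ 0) :
    ∃ (U : (WittVector 2 E)[X]) (a a' : WittVector 2 E), U.natDegree = u.natDegree ∧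
      U.leadingCoeff = a ∧ a * a' = 1 ∧ WittVector.map φ a = a ∧
      U.map (WittVector.map φ) = U ∧ U.map WittVector.constantCoeff = u.map ι := by
  have hlc : u.leadingCoeff ≠ 0 := leadingCoeff_ne_zero.2 hu0
  set T : K → WittVector 2 E := fun x => WittVector.teichmuller 2 (ι x) with hT
  have hTσ : ∀ x, WittVector.map φ (T x) = T x := by
    intro x
    rw [hT]
    simp only
    rw [WittVector.map_teichmuller, hι]
  have hTπ : ∀ x, WittVector.constantCoeff (T x) = ι x := by
    intro x
    exact WittVector.teichmuller_coeff_zero 2 (ι x)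
  have hTmul : ∀ x y, T x * T y = T (x * y) := by
    intro x y
    rw [hT]
    simp only
    rw [map_mul, map_mul]
  have hT1 : T 1 = 1 := by
    rw [hT]
    simp only
    rw [map_one, map_one]
  -- the lift of `u`
  set U : (WittVector 2 E)[X] := ∑ i ∈ range (u.natDegree + 1), C (T (u.coeff i)) * X ^ i with hU
  have hUcoeff : ∀ i, U.coeff i = if i ∈ range (u.natDegree + 1) then T (u.coeff i) else 0 := by
    intro i
    rw [hU, finsetSum_coeff]
    simp only [coeff_C_mul, coeff_X_pow, mul_ite, mul_one, mul_zero]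
    rw [Finset.sum_ite_eq]
  have hUle : U.natDegree ≤ u.natDegree := by
    rw [natDegree_le_iff_coeff_eq_zero]
    intro i hi
    rw [hUcoeff, if_neg]
    simp; omega
  have hUlead' : U.coeff u.natDegree = T u.leadingCoeff := by
    rw [hUcoeff, if_pos (by simp)]
    rfl
  have hTlc : T u.leadingCoeff * T (u.leadingCoeff)⁻¹ = 1 := by
    rw [hTmul, mul_inv_cancel₀ hlc, hT1]
  have hTlc0 : T u.leadingCoeff ≠ 0 := by
    intro h
    rw [h, zero_mul] at hTlc
    exact zero_ne_one hTlc
  have hUdeg : U.natDegree = u.natDegree :=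
    le_antisymm hUle (le_natDegree_of_ne_zero (by rw [hUlead']; exact hTlc0))
  have hUlead : U.leadingCoeff = T u.leadingCoeff := by
    rw [leadingCoeff, hUdeg, hUlead']
  have hUσ : U.map (WittVector.map φ) = U := by
    rw [hU, Polynomial.map_sum]
    simp [hTσ]
  have hUπ : U.map WittVector.constantCoeff = u.map ι := by
    conv_rhs => rw [u.as_sum_range_C_mul_X_pow]
    rw [hU, Polynomial.map_sum, Polynomial.map_sum]
    refine Finset.sum_congr rfl fun i _ => ?_
    rw [Polynomial.map_mul, Polynomial.map_mul, map_C, map_C, hTπ, Polynomial.map_pow,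
      Polynomial.map_pow, map_X, map_X]
  exact ⟨U, T u.leadingCoeff, T (u.leadingCoeff)⁻¹, hUdeg, hUlead, hTlc, hTσ _, hUσ, hUπ⟩

/-- `u ^ 8 + X b ^ 16` is reducible in characteristic two -/
theorem not_irreducible_two {K : Type u} [Field K] [Finite K] [CharP K 2] (u b : K[X])
    (hb0 : b ≠ 0) (hub : (X * b ^ 16).natDegree < 8 * u.natDegree) :
    ¬ Irreducible (u ^ 8 + X * b ^ 16) := by
  intro hirr
  have hu : 0 < u.natDegree := by omega
  set h : K[X] := u ^ 8 + X * b ^ 16 with hh
  have hdeg : h.natDegree = 8 * u.natDegree := by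
    rw [hh, natDegree_add_eq_left_of_natDegree_lt (by rw [natDegree_pow]; exact hub),
      natDegree_pow]
  have hbdeg : (X * b ^ 16).natDegree = 1 + 16 * b.natDegree := by
    rw [natDegree_mul X_ne_zero (pow_ne_zero _ hb0), natDegree_X, natDegree_pow]
  obtain ⟨E, _, _, ι, φ, θ, hι, hroot, hφ, hper, hinj⟩ := exists_ext h hirr
  have : CharP E 2 := charP_of_injective_ringHom ι.injective 2
  rw [hdeg] at hper hinj
  set n := 8 * u.natDegree with hn
  have hu0 : u ≠ 0 := by
    rintro rfl
    simp at hu
  obtain ⟨U, a, a', hUdeg, hUlead, haa, haσ, hUσ, hUπ⟩ := exists_lift ι φ hι u hu0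
  obtain ⟨B, a₁, a₁', hBdeg, hBlead, haa₁, haσ₁, hBσ, hBπ⟩ := exists_lift ι φ hι b hb0
  have ha0 : a ≠ 0 := by
    rintro rfl
    rw [zero_mul] at haa
    exact zero_ne_one haa
  have ha10 : a₁ ≠ 0 := by
    rintro rfl
    rw [zero_mul] at haa₁
    exact zero_ne_one haa₁
  have hB0 : B ≠ 0 := by
    rw [← leadingCoeff_ne_zero, hBlead]
    exact ha10
  -- the value of `b` at the root
  have hbθ : (b.map ι).eval θ ≠ 0 := by
    intro h0
    have h1 : IsCoprime b h := by
      rw [isCoprime_comm, hirr.coprime_iff_not_dvd]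
      intro hd
      have := natDegree_le_of_dvd hd hb0
      omega
    obtain ⟨r, s, hrs⟩ := h1
    have h2 := congrArg (fun P : K[X] => (P.map ι).eval θ) hrs
    simp only [Polynomial.map_add, Polynomial.map_mul, eval_add, eval_mul, h0, mul_zero,
      Polynomial.map_one, eval_one, zero_add] at h2
    rw [eval_map ι] at h2
    rw [eval_map ι θ, hroot, mul_zero] at h2
    exact zero_ne_one h2
  -- the lift of `h`
  set H : (WittVector 2 E)[X] := U ^ 8 + X * B ^ 16 with hH
  have hX' : (X * B ^ 16 : (WittVector 2 E)[X]).natDegree < (U ^ 8).natDegree := by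
    rw [natDegree_mul X_ne_zero (pow_ne_zero _ hB0), natDegree_X, natDegree_pow, natDegree_pow,
      hUdeg, hBdeg]
    omega
  have hHdeg : H.natDegree = n := by
    rw [hH, natDegree_add_eq_left_of_natDegree_lt hX', natDegree_pow, hUdeg]
  have hHlead : H.leadingCoeff = a ^ 8 := by
    rw [hH, leadingCoeff_add_of_degree_lt' (degree_lt_degree hX'), leadingCoeff_pow, hUlead]
  have hH0 : H ≠ 0 := by
    rw [← leadingCoeff_ne_zero, hHlead]
    exact pow_ne_zero _ ha0
  have hHσ : H.map (WittVector.map φ) = H := by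
    rw [hH, Polynomial.map_add, Polynomial.map_mul, Polynomial.map_pow, Polynomial.map_pow, hUσ,
      hBσ, map_X]
  have hHπ : H.map WittVector.constantCoeff = h.map ι := by
    rw [hH, Polynomial.map_add, Polynomial.map_mul, Polynomial.map_pow, Polynomial.map_pow, hUπ,
      hBπ, map_X, hh, Polynomial.map_add, Polynomial.map_mul, Polynomial.map_pow,
      Polynomial.map_pow, map_X]
  have hHd : derivative H = B ^ 16
      + 8 * (U ^ 7 * derivative U + 2 * (X * B ^ 15 * derivative B)) := by
    rw [hH, derivative_add, derivative_mul, derivative_X, derivative_pow, derivative_pow]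
    simp only [Nat.cast_ofNat, Nat.add_one_sub_one]
    rw [map_ofNat, map_ofNat]
    ring
  -- a root of the lift
  set b' : WittVector 2 E := a' ^ 8 with hb'
  have hb1 : a ^ 8 * b' = 1 := by
    rw [hb', ← mul_pow, haa, one_pow]
  have hbπ : WittVector.constantCoeff b' ≠ 0 := by
    intro h
    have := congrArg WittVector.constantCoeff hb1
    rw [map_mul, h, mul_zero, map_one] at this
    exact zero_ne_one this
  have hb'0 : b' ≠ 0 := by
    rintro h
    rw [h, mul_zero] at hb1
    exact zero_ne_one hb1
  have hmonic : (C b' * H).Monic := by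
    rw [Monic, leadingCoeff_mul, leadingCoeff_C, hHlead, mul_comm]
    exact hb1
  have hπeval : ∀ (P : (WittVector 2 E)[X]) (x : WittVector 2 E),
      WittVector.constantCoeff (P.eval x)
        = (P.map WittVector.constantCoeff).eval (WittVector.constantCoeff x) := by
    intro P x
    rw [eval_map, eval₂_at_apply]
  have hπθ : WittVector.constantCoeff (WittVector.teichmuller 2 θ) = θ :=
    WittVector.teichmuller_coeff_zero 2 θ
  obtain ⟨Θ, hΘ, hΘπ⟩ := hensel (C b' * H) hmonic (WittVector.teichmuller 2 θ)
    (by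
      rw [hπeval, Polynomial.map_mul, hHπ, eval_mul, eval_map ι, hπθ, hroot, mul_zero])
    (by
      rw [derivative_C_mul, eval_C_mul, map_mul, hHd, eval_add, map_add, eval_mul, map_mul]
      have h8 : WittVector.constantCoeff (eval (WittVector.teichmuller 2 θ)
          (8 : (WittVector 2 E)[X])) = 0 := by
        have e : (8 : (WittVector 2 E)[X]) = C 8 := by rw [map_ofNat]
        rw [e, eval_C, map_ofNat]
        have e2 : (8 : E) = 2 * 4 := by norm_num
        rw [e2, CharTwo.two_eq_zero, zero_mul]
      rw [h8, zero_mul, add_zero]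
      refine mul_ne_zero hbπ ?_
      rw [eval_pow, map_pow, hπeval, hBπ, hπθ]
      exact pow_ne_zero _ hbθ)
  have hΘθ : WittVector.constantCoeff Θ = θ := by
    rw [hΘπ, hπθ]
  have hΘH : H.eval Θ = 0 := by
    rw [eval_mul, eval_C] at hΘ
    exact (mul_eq_zero.1 hΘ).resolve_left hb'0
  set w : ℕ → WittVector 2 E := fun k => (WittVector.map φ)^[k] Θ with hw
  have hwσ : ∀ k, WittVector.map φ (w k) = w (k + 1) := fun k =>
    (Function.iterate_succ_apply' _ k Θ).symm
  have hwπ : ∀ k, WittVector.constantCoeff (w k) = φ^[k] θ := by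
    intro k
    induction k with
    | zero => simpa [hw] using hΘθ
    | succ k ih =>
      rw [← hwσ, constantCoeff_map, ih, Function.iterate_succ_apply']
  have hevalσ : ∀ (P : (WittVector 2 E)[X]), P.map (WittVector.map φ) = P → ∀ k,
      WittVector.map φ (P.eval (w k)) = P.eval (w (k + 1)) := by
    intro P hP k
    rw [← hwσ]
    conv_rhs => rw [← hP, eval_map, eval₂_at_apply]
  have hwroot : ∀ k, H.eval (w k) = 0 := by
    intro k
    induction k with
    | zero => simpa [hw] using hΘH
    | succ k ih =>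
      rw [← hevalσ H hHσ, ih, map_zero]
  have hwinj : ∀ i j, i < n → j < n → w i = w j → i = j := by
    intro i j hi hj he
    apply hinj i j hi hj
    rw [← hwπ, ← hwπ, he]
  have heq := eq_prod H hH0 hHdeg w hwinj (fun i _ => hwroot i)
  have hn0 : 0 < n := by omega
  have hwn : w n = w 0 := by
    have h1 := hwroot n
    rw [heq, eval_mul, eval_C, eval_prod] at h1
    have h2 := (mul_eq_zero.1 h1).resolve_left (leadingCoeff_ne_zero.2 hH0)
    rw [Finset.prod_eq_zero_iff] at h2
    obtain ⟨j, -, hj⟩ := h2
    rw [eval_sub, eval_X, eval_C, sub_eq_zero] at hj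
    have h3 := congrArg WittVector.constantCoeff hj
    rw [hwπ, hwπ] at h3
    have h4 := hper 0
    rw [zero_add] at h4
    rw [h4] at h3
    have h5 := hinj 0 j hn0 j.2 h3
    rw [hj, ← h5]
  have hwper : ∀ k, w (k + n) = w k := by
    intro k
    induction k with
    | zero => rw [zero_add]; exact hwn
    | succ k ih =>
      rw [← hwσ k, ← ih, hwσ]
      congr 1; ring
  -- the values of `B` are units
  have hBw : ∀ k, WittVector.constantCoeff (B.eval (w k)) ≠ 0 := by
    intro k
    induction k with
    | zero =>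
      rw [hπeval, hBπ, hwπ]
      exact hbθ
    | succ k ih =>
      rw [← hevalσ B hBσ, constantCoeff_map]
      exact (map_ne_zero φ).2 ih
  set β : WittVector 2 E := ∏ i : Fin n, B.eval (w i) ^ 8 with hβ
  have hβσ : WittVector.map φ β = β := by
    rw [hβ, map_prod]
    have h1 : ∀ i : Fin n, WittVector.map φ (B.eval (w i) ^ 8) = B.eval (w (i + 1)) ^ 8 := by
      intro i
      rw [map_pow, hevalσ B hBσ]
    rw [prod_congr rfl fun i _ => h1 i]
    exact prod_shift hn0 (fun i => B.eval (w i) ^ 8) (by rw [hwn])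
  have hβu : IsUnit β := by
    apply WittVector.isUnit_of_coeff_zero_ne_zero
    change WittVector.constantCoeff β ≠ 0
    rw [hβ, map_prod, Finset.prod_ne_zero_iff]
    intro i _
    rw [map_pow]
    exact pow_ne_zero _ (hBw i)
  -- the product of the derivatives
  set P : WittVector 2 E := ∏ i : Fin n, (derivative H).eval (w i) with hP
  have hPσ : WittVector.map φ P = P := by
    rw [hP, map_prod]
    have h1 : ∀ i : Fin n, WittVector.map φ ((derivative H).eval (w i))
        = (derivative H).eval (w (i + 1)) := by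
      intro i
      exact hevalσ _ (by rw [← derivative_map, hHσ]) _
    rw [prod_congr rfl fun i _ => h1 i]
    exact prod_shift hn0 (fun i => (derivative H).eval (w i)) (by rw [hwn])
  have hP8 : (8 : WittVector 2 E) ∣ P - β ^ 2 := by
    rw [hP, hβ, ← prod_pow]
    have key : ∀ s : Finset (Fin n), (8 : WittVector 2 E) ∣
        ∏ i ∈ s, (derivative H).eval (w i) - ∏ i ∈ s, (B.eval (w i) ^ 8) ^ 2 := by
      intro s
      induction s using Finset.induction_on with
      | empty => simp
      | insert j s hj ih =>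
        rw [prod_insert hj, prod_insert hj]
        have h1 : (8 : WittVector 2 E) ∣ (derivative H).eval (w j) - (B.eval (w j) ^ 8) ^ 2 := by
          rw [hHd, eval_add, eval_pow, eval_mul]
          have e : (8 : (WittVector 2 E)[X]) = C 8 := by rw [map_ofNat]
          rw [e, eval_C, ← pow_mul]
          exact ⟨eval (w j) (U ^ 7 * derivative U + 2 * (X * B ^ 15 * derivative B)), by ring⟩
        have h2 : ∀ x y z t : WittVector 2 E, x * z - y * t = (x - y) * z + y * (z - t) := by
          intro x y z t; ring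
        rw [h2]
        exact dvd_add (Dvd.dvd.mul_right h1 _) (Dvd.dvd.mul_left ih _)
    exact key univ
  obtain ⟨γ, hγ⟩ := hβu.exists_right_inv
  have hγσ : WittVector.map φ γ = γ := by
    have h1 := congrArg (WittVector.map φ) hγ
    rw [map_mul, hβσ, map_one] at h1
    exact hβu.mul_left_cancel (h1.trans hγ.symm)
  obtain ⟨c, hc, hPc⟩ := exists_sqrt φ (P * γ ^ 2)
    (by
      have : P * γ ^ 2 - 1 = (P - β ^ 2) * γ ^ 2 := by
        linear_combination (β * γ + 1) * hγ
      rw [this]
      exact Dvd.dvd.mul_right hP8 _)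
    (by rw [map_mul, map_pow, hPσ, hγσ])
  refine two_ne (E := E) (core (WittVector.map φ) (n := n) ⟨2 * u.natDegree, by omega⟩ hn0 w hwper
    hwinj hwσ H.leadingCoeff ?_ (leadingCoeff_ne_zero.2 hH0) (β * c) ?_ ?_)
  · rw [hHlead, map_pow, haσ]
  · rw [map_mul, hβσ, hc]
  · rw [← heq]
    have : P = β ^ 2 * (P * γ ^ 2) := by
      linear_combination (-(β * γ) - 1) * P * hγ
    rw [← hP, this, hPc]
    ring

end Pool.Agent.Y713.ES
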