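import Pool.Agent.Y713.ES.Frob

/-!
# The parity argument in characteristic two, with Witt vectors
-/

set_option autoImplicit false

namespace Pool.Agent.Y713.ES

open Polynomial Finset

universe u

variable {E : Type u} [Field E] [Finite E] [CharP E 2]

theorem two_ne : (2 : WittVector 2 E) ≠ 0 := by
  intro h
  have h1 : (1 : WittVector 2 E) = 0 :=
    WittVector.eq_zero_of_p_mul_eq_zero 1 (by rw [one_mul]; exact_mod_cast h)
  exact one_ne_zero h1

theorem mem_iff (x : WittVector 2 E) :
    x ∈ Ideal.span {((2 : ℕ) : WittVector 2 E)} ↔ WittVector.constantCoeff x = 0 := by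
  rw [WittVector.mem_span_p_iff_coeff_zero_eq_zero]; rfl

/-- the lemma of Hensel -/
theorem hensel (f : (WittVector 2 E)[X]) (hf : f.Monic) (a : WittVector 2 E)
    (h0 : WittVector.constantCoeff (f.eval a) = 0)
    (h1 : WittVector.constantCoeff (f.derivative.eval a) ≠ 0) :
    ∃ b, f.eval b = 0 ∧ WittVector.constantCoeff b = WittVector.constantCoeff a := by
  have hu : IsUnit (f.derivative.eval a) := WittVector.isUnit_of_coeff_zero_ne_zero _ h1
  obtain ⟨b, hb, hb'⟩ := HenselianRing.is_henselian (I := Ideal.span {((2 : ℕ) : WittVector 2 E)})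
    f hf a ((mem_iff _).2 h0) (hu.map _)
  refine ⟨b, hb, ?_⟩
  rw [mem_iff, map_sub, sub_eq_zero] at hb'
  exact hb'

theorem constantCoeff_map (φ : E →+* E) (x : WittVector 2 E) :
    WittVector.constantCoeff (WittVector.map φ x) = φ (WittVector.constantCoeff x) := rfl

/-- square roots of elements congruent to one modulo eight -/
theorem exists_sqrt (φ : E →+* E) (P : WittVector 2 E) (h8 : (8 : WittVector 2 E) ∣ P - 1)
    (hP : WittVector.map φ P = P) : ∃ c, WittVector.map φ c = c ∧ P = c ^ 2 := by
  obtain ⟨x, hx⟩ := h8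
  have h80 : (8 : WittVector 2 E) ≠ 0 := by
    have : (8 : WittVector 2 E) = 2 ^ 3 := by norm_num
    rw [this]
    exact pow_ne_zero _ two_ne
  have hx' : WittVector.map φ x = x := by
    apply mul_left_cancel₀ h80
    have := congrArg (WittVector.map φ) hx
    rw [map_sub, hP, map_mul, map_one, map_ofNat, hx] at this
    exact this.symm
  obtain ⟨y, hy, hy0⟩ := hensel (X ^ 2 + X - C (2 * x)) (by monicity!) 0
    (by
      simp only [eval_sub, eval_add, eval_pow, eval_X, eval_C]
      have : (2 : WittVector 2 E) * x = ((2 : ℕ) : WittVector 2 E) * x := by norm_num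
      rw [← mem_iff, this]
      simp only [ne_eq, OfNat.ofNat_ne_zero, not_false_eq_true, zero_pow, add_zero, zero_sub,
        neg_mem_iff]
      exact Ideal.mul_mem_right _ _ (Ideal.mem_span_singleton_self _))
    (by simp)
  simp only [eval_sub, eval_add, eval_pow, eval_X, eval_C] at hy
  rw [map_zero] at hy0
  have hy' : WittVector.map φ y = y := by
    have h1 := congrArg (WittVector.map φ) hy
    rw [map_sub, map_add, map_pow, map_mul, hx', map_ofNat, map_zero] at h1
    have h2 : (WittVector.map φ y - y) * (WittVector.map φ y + y + 1) = 0 := by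
      linear_combination h1 - hy
    rcases mul_eq_zero.1 h2 with h | h
    · exact sub_eq_zero.1 h
    · exfalso
      have h3 := congrArg WittVector.constantCoeff h
      rw [map_add, map_add, constantCoeff_map, hy0, map_zero, map_one, map_zero] at h3
      simp at h3
  refine ⟨1 + 2 * y, ?_, ?_⟩
  · rw [map_add, map_one, map_mul, map_ofNat, hy']
  · linear_combination hx - 4 * hy

end Pool.Agent.Y713.ES
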